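import Pool.Agent.Helper33.IR.Goals

/-!
# Project IR (MP_6829b3_nt), packet CN4
-/

set_option autoImplicit false

namespace Pool.Agent.Helper31.IR

open Pool.Agent.Helper33.IR

theorem log4_eq : Real.log 4 = 2 * Real.log 2 := by
  rw [show (4 : ℝ) = 2 ^ 2 by norm_num, Real.log_pow]
  norm_num

/-- two points strictly between `0` and `eta` -/
theorem between {x y eta : ℝ} (hx : x * (x - eta) < 0) (hy : y * (y - eta) < 0) :
    |y - x| < |eta| := by
  have h0 : eta ≠ 0 := by
    rintro rfl
    nlinarith [mul_self_nonneg x]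
  rcases lt_or_gt_of_ne h0 with h | h
  · -- `eta < x < 0`
    have hx1 : eta < x ∧ x < 0 := by
      constructor
      · by_contra hc
        nlinarith
      · by_contra hc
        nlinarith
    have hy1 : eta < y ∧ y < 0 := by
      constructor
      · by_contra hc
        nlinarith
      · by_contra hc
        nlinarith
    rw [abs_of_neg h, abs_lt]
    constructor <;> linarith
  · have hx1 : 0 < x ∧ x < eta := by
      constructor
      · by_contra hc
        nlinarith
      · by_contra hc
        nlinarith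
    have hy1 : 0 < y ∧ y < eta := by
      constructor
      · by_contra hc
        nlinarith
      · by_contra hc
        nlinarith
    rw [abs_of_pos h, abs_lt]
    constructor <;> linarith

/-- the spacing -/
theorem spacing {q p q' p' : ℕ} (hB : Best q p q' p') {t : ℚ} {j j' : ℕ} (hj : j < j')
    (h : Cross4 (lin q p) t j) (h' : Cross4 (lin q p) t j') : 2 * j + q' ≤ 2 * j' := by
  obtain ⟨k, _, hx⟩ := h
  obtain ⟨k', _, hx'⟩ := h'
  have l2 : 0.6931471803 < Real.log 2 := Real.log_two_gt_d9
  have l3 : Real.log 2 < Real.log 3 := Real.log_lt_log (by norm_num) (by norm_num)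
  have l4 := log4_eq
  have h1 := between hx hx'
  have e1 : (-lin k' j' - Real.log t) - (-lin k j - Real.log t) = -(lin k' j' - lin k j) := by ring
  rw [e1, abs_neg] at h1
  have h2 := hB.small
  have e2 : lin k' j' - lin k j =
      ((k' : ℝ) - k) * Real.log 3 - ((j' : ℝ) - j) * Real.log 4 := by
    unfold lin
    push_cast
    ring
  have hjR : (j : ℝ) + 1 ≤ j' := by exact_mod_cast hj
  have hk : k < k' := by
    by_contra hc
    have hkR : (k' : ℝ) ≤ k := by exact_mod_cast not_lt.1 hc
    have h3 : lin k' j' - lin k j ≤ -Real.log 4 := by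
      rw [e2]
      nlinarith
    have h4 := (abs_lt.1 h1).1
    have h5 : |lin q p| < 1 / 20 := h2
    linarith
  have e3 : lin k' j' - lin k j = lin ((k' - k : ℕ) : ℤ) ((j' - j : ℕ) : ℤ) := by
    rw [e2]
    unfold lin
    rw [Nat.cast_sub hk.le, Nat.cast_sub hj.le]
    push_cast
    ring
  have hq : q' ≤ k' - k := by
    by_contra hc
    have h3 := hB.best (k' - k) (j' - j) (by omega) (by omega)
    rw [e3] at h1
    linarith
  have hqR : (q' : ℝ) ≤ (k' : ℝ) - k := by
    have : (q' : ℝ) ≤ ((k' - k : ℕ) : ℝ) := by exact_mod_cast hq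
    rwa [Nat.cast_sub hk.le] at this
  by_contra hc
  have h6 : 2 * (j' : ℝ) + 1 ≤ 2 * j + q' := by
    have : 2 * j' + 1 ≤ 2 * j + q' := by omega
    exact_mod_cast this
  rw [e2] at h1
  have h7 := (abs_lt.1 h1).2
  have h8 : (q' : ℝ) * Real.log 3 ≤ ((k' : ℝ) - k) * Real.log 3 :=
    mul_le_mul_of_nonneg_right hqR (by linarith)
  have h9 : ((j' : ℝ) - j) * Real.log 4 ≤ ((q' : ℝ) - 1) * Real.log 2 := by
    rw [l4]
    nlinarith
  have h10 : (0 : ℝ) ≤ q' := Nat.cast_nonneg _
  have h11 : (q' : ℝ) * Real.log 2 ≤ q' * Real.log 3 := mul_le_mul_of_nonneg_left l3.le h10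
  linarith

/-- **Packet CN4.** -/
theorem gCN4 : G_CN4 := by
  intro q p q' p' hB t S hS
  have hq' : 0 < q' := lt_of_le_of_lt (Nat.zero_le _) hB.lt
  rw [← Finset.card_range 12]
  refine Finset.card_le_card_of_injOn (fun j => 2 * (j - 1) / q') ?_ ?_
  · intro j hj
    obtain ⟨h1, h2, _⟩ := hS j hj
    rw [Finset.coe_range, Set.mem_Iio, Nat.div_lt_iff_lt_mul hq']
    omega
  · have key : ∀ j ∈ S, ∀ j' ∈ S, j < j' → 2 * (j - 1) / q' < 2 * (j' - 1) / q' := by
      intro j hj j' hj' hlt
      have h1 := spacing hB hlt (hS j hj).2.2 (hS j' hj').2.2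
      have h2 := (hS j hj).1
      have h3 : 2 * (j - 1) + q' ≤ 2 * (j' - 1) := by omega
      calc 2 * (j - 1) / q' < 2 * (j - 1) / q' + 1 := Nat.lt_succ_self _
        _ = (2 * (j - 1) + q') / q' := (Nat.add_div_right _ hq').symm
        _ ≤ 2 * (j' - 1) / q' := Nat.div_le_div_right h3
    intro j hj j' hj' he
    by_contra hne
    have he' : 2 * (j - 1) / q' = 2 * (j' - 1) / q' := he
    rcases lt_or_gt_of_ne hne with h | h
    · have := key j hj j' hj' h
      omega
    · have := key j' hj' j hj h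
      omega

end Pool.Agent.Helper31.IR
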